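import Mathlib
import Pool.Agent.H749R2.Area1

/-! Change of variables `ξ = A c ^ N`. -/

set_option autoImplicit false
open MeasureTheory Set Real
open scoped ENNReal

namespace Pool.Agent.TH363.EX

open Pool.Agent.H749R2.Area (pt pt_eq norm_pt pt_pow vol_polar)

theorem meas_pt : Measurable fun p : ℝ × ℝ => pt p.1 p.2 := by
  unfold pt
  fun_prop

/-- Weighted area in polar coordinates. -/
theorem lint_polar {S : Set ℂ} (hS : MeasurableSet S) {h : ℝ → ℝ≥0∞} (hh : Measurable h) :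
    ∫⁻ ξ in S, h ‖ξ‖ = ∫⁻ x in Ioi (0:ℝ), ENNReal.ofReal x *
      (h x * volume ({φ | pt x φ ∈ S} ∩ Ioo (-π) π)) := by
  have hmeas := meas_pt
  rw [← lintegral_indicator hS, ← Complex.lintegral_comp_polarCoord_symm]
  have ht : polarCoord.target = Ioi (0:ℝ) ×ˢ Ioo (-π) π := rfl
  rw [ht, Measure.volume_eq_prod, ← Measure.prod_restrict]
  have hsymm : ∀ p : ℝ × ℝ, Complex.polarCoord.symm p = pt p.1 p.2 := by
    intro p
    rw [Complex.polarCoord_symm_apply, pt]
    push_cast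
    rfl
  have hmh : Measurable fun ξ : ℂ => h ‖ξ‖ := hh.comp measurable_norm
  have hmi : Measurable (S.indicator fun ξ : ℂ => h ‖ξ‖) := hmh.indicator hS
  have hAE : Measurable fun p : ℝ × ℝ =>
      ENNReal.ofReal p.1 • S.indicator (fun ξ : ℂ => h ‖ξ‖) (Complex.polarCoord.symm p) := by
    have h1 : Measurable fun p : ℝ × ℝ => S.indicator (fun ξ : ℂ => h ‖ξ‖) (pt p.1 p.2) :=
      hmi.comp hmeas
    have h2 : (fun p : ℝ × ℝ =>
      ENNReal.ofReal p.1 • S.indicator (fun ξ : ℂ => h ‖ξ‖) (Complex.polarCoord.symm p))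
      = fun p : ℝ × ℝ => ENNReal.ofReal p.1 * S.indicator (fun ξ : ℂ => h ‖ξ‖) (pt p.1 p.2) := by
      funext p; rw [hsymm, smul_eq_mul]
    rw [h2]
    exact (measurable_fst.ennreal_ofReal).mul h1
  rw [lintegral_prod _ hAE.aemeasurable]
  refine setLIntegral_congr_fun measurableSet_Ioi fun x hx => ?_
  have hx0 : 0 ≤ x := (mem_Ioi.1 hx).le
  simp only [hsymm, smul_eq_mul]
  have hmx : Measurable fun φ : ℝ => pt x φ := by unfold pt; fun_prop
  have hset : MeasurableSet {φ | pt x φ ∈ S} := hmx hS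
  rw [lintegral_const_mul]
  · congr 1
    have : (fun y : ℝ => S.indicator (fun ξ : ℂ => h ‖ξ‖) (pt x y))
        = fun y : ℝ => h x * ({φ | pt x φ ∈ S}).indicator (1 : ℝ → ℝ≥0∞) y := by
      funext y
      by_cases hy : pt x y ∈ S
      · rw [indicator_of_mem hy, indicator_of_mem (show y ∈ {φ | pt x φ ∈ S} from hy), norm_pt hx0]
        simp
      · rw [indicator_of_notMem hy, indicator_of_notMem (show y ∉ {φ | pt x φ ∈ S} from hy),
          mul_zero]
    rw [this, lintegral_const_mul _ (measurable_one.indicator hset), lintegral_indicator_one hset,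
      Measure.restrict_apply hset]
  · exact hmi.comp hmx

/-- The measure of the dilation of a periodic set. -/
theorem periodic_dilate {T : Set ℝ} (hT : MeasurableSet T) (hper : ∀ x, x + 2 * π ∈ T ↔ x ∈ T)
    {N : ℕ} (hN : 1 ≤ N) :
    volume ({φ : ℝ | (N:ℝ) * φ ∈ T} ∩ Ioo (-π) π) = volume (T ∩ Ioo (-π) π) := by
  have hπ := Real.pi_pos
  have hN0 : (0:ℝ) < N := by exact_mod_cast hN
  set g : ℝ → ℝ := T.indicator 1 with hg
  have hgper : Function.Periodic g (2 * π) := by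
    intro x
    rw [hg]
    by_cases hx : x ∈ T
    · rw [indicator_of_mem hx, indicator_of_mem ((hper x).2 hx)]
      rfl
    · rw [indicator_of_notMem hx, indicator_of_notMem (fun h => hx ((hper x).1 h))]
  have hgm : Measurable g := measurable_one.indicator hT
  have hg0 : ∀ x, 0 ≤ g x := fun x => indicator_nonneg (fun _ _ => zero_le_one) x
  have hg1 : ∀ x, ‖g x‖ ≤ 1 := by
    intro x
    rw [hg]
    by_cases hx : x ∈ T
    · rw [indicator_of_mem hx]; simp
    · rw [indicator_of_notMem hx]; simp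
  have hint : ∀ t₁ t₂, IntervalIntegrable g volume t₁ t₂ := by
    intro a b
    refine (intervalIntegrable_const (c := (1:ℝ))).mono_fun hgm.aestronglyMeasurable ?_
    refine Filter.Eventually.of_forall fun x => ?_
    simpa using hg1 x
  have h1 : ∫ φ in (-π)..π, g (N * φ) = ∫ φ in (-π)..π, g φ := by
    rw [intervalIntegral.integral_comp_mul_left g hN0.ne']
    have h2 : (N:ℝ) * π = N * (-π) + ((N:ℕ):ℤ) • (2 * π) := by
      simp only [zsmul_eq_mul, Int.cast_natCast]
      ring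
    rw [h2, hgper.intervalIntegral_add_zsmul_eq _ _ hint, hgper.intervalIntegral_add_eq _ (-π)]
    have h3 : -π + 2 * π = π := by ring
    rw [h3, zsmul_eq_mul, smul_eq_mul]
    push_cast
    field_simp
  -- convert to measures
  have h2 : ∀ S : Set ℝ, MeasurableSet S → ∫ φ in (-π)..π, S.indicator (1 : ℝ → ℝ) φ =
      (volume (S ∩ Ioo (-π) π)).toReal := by
    intro S hS
    rw [intervalIntegral.integral_of_le (by linarith), integral_Ioc_eq_integral_Ioo,
      integral_indicator_one hS, measureReal_def, Measure.restrict_apply hS]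
  have h3 : (fun φ : ℝ => g (N * φ)) = ({φ : ℝ | (N:ℝ) * φ ∈ T}).indicator 1 := by
    funext φ
    rw [hg]
    by_cases hx : (N:ℝ) * φ ∈ T
    · rw [indicator_of_mem hx, indicator_of_mem (show φ ∈ {φ : ℝ | (N:ℝ) * φ ∈ T} from hx)]
      rfl
    · rw [indicator_of_notMem hx, indicator_of_notMem (show φ ∉ {φ : ℝ | (N:ℝ) * φ ∈ T} from hx)]
  have hmS : MeasurableSet {φ : ℝ | (N:ℝ) * φ ∈ T} := (measurable_const_mul (N:ℝ)) hT
  rw [h3, h2 _ hmS, hg, h2 _ hT] at h1
  rwa [ENNReal.toReal_eq_toReal_iff' (ne_of_lt ((measure_mono inter_subset_right).trans_lt (by simp)))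
    (ne_of_lt ((measure_mono inter_subset_right).trans_lt (by simp)))] at h1

/-- Change of variables `ξ = A c ^ N`. -/
theorem chg {S : Set ℂ} (hS : MeasurableSet S) {N : ℕ} (hN : 1 ≤ N) {A : ℝ} (hA : 0 < A) :
    volume {c : ℂ | (A:ℂ) * c ^ N ∈ S} =
      ∫⁻ ξ in S, ENNReal.ofReal ((‖ξ‖ / A) ^ (2 / (N:ℝ)) / (N * ‖ξ‖ ^ 2)) := by
  have hN0 : (0:ℝ) < N := by exact_mod_cast hN
  have hmU : MeasurableSet {c : ℂ | (A:ℂ) * c ^ N ∈ S} := by
    have : Measurable fun c : ℂ => (A:ℂ) * c ^ N := by fun_prop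
    exact this hS
  have hmh : Measurable fun r : ℝ => ENNReal.ofReal ((r / A) ^ (2 / (N:ℝ)) / (N * r ^ 2)) := by
    fun_prop
  rw [vol_polar hmU, lint_polar hS hmh]
  -- the measure of the slices
  set v : ℝ → ℝ≥0∞ := fun r => volume ({φ | pt r φ ∈ S} ∩ Ioo (-π) π) with hv
  have hslice : ∀ x ∈ Ioi (0:ℝ), volume ({φ | pt x φ ∈ {c : ℂ | (A:ℂ) * c ^ N ∈ S}} ∩ Ioo (-π) π) =
      v (A * x ^ N) := by
    intro x hx
    have h1 : {φ | pt x φ ∈ {c : ℂ | (A:ℂ) * c ^ N ∈ S}} =
        {φ : ℝ | (N:ℝ) * φ ∈ {θ | pt (A * x ^ N) θ ∈ S}} := by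
      ext φ
      simp only [Set.mem_ofPred_eq]
      rw [pt_pow, pt, pt]
      push_cast
      rw [mul_assoc]
    rw [h1]
    refine periodic_dilate ?_ ?_ hN
    · have hmx : Measurable fun φ : ℝ => pt (A * x ^ N) φ := by unfold pt; fun_prop
      exact hmx hS
    · intro θ
      simp only [Set.mem_ofPred_eq]
      have : pt (A * x ^ N) (θ + 2 * π) = pt (A * x ^ N) θ := by
        rw [pt_eq, pt_eq]
        congr 1
        have : ((θ + 2 * π : ℝ) : ℂ) * Complex.I = θ * Complex.I + 2 * π * Complex.I := by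
          push_cast; ring
        rw [this, Complex.exp_periodic]
      rw [this]
  have e1 : ∫⁻ x in Ioi (0:ℝ), ENNReal.ofReal x *
      volume ({φ | pt x φ ∈ {c : ℂ | (A:ℂ) * c ^ N ∈ S}} ∩ Ioo (-π) π) =
      ∫⁻ x in Ioi (0:ℝ), ENNReal.ofReal x * v (A * x ^ N) :=
    setLIntegral_congr_fun measurableSet_Ioi fun x hx => by
      show _ = _
      rw [← hslice x hx]
  rw [e1]
  -- the substitution `r = A x ^ N`
  set F : ℝ → ℝ := fun x => A * x ^ N with hF
  set w : ℝ → ℝ≥0∞ := fun r => ENNReal.ofReal r *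
      (ENNReal.ofReal ((r / A) ^ (2 / (N:ℝ)) / (N * r ^ 2)) * v r) with hw
  have himg : F '' Ioi (0:ℝ) = Ioi (0:ℝ) := by
    ext r
    simp only [mem_image, mem_Ioi, hF]
    constructor
    · rintro ⟨x, hx, rfl⟩
      positivity
    · intro hr
      refine ⟨(r / A) ^ (1 / (N:ℝ)), by positivity, ?_⟩
      rw [← Real.rpow_natCast, ← Real.rpow_mul (by positivity)]
      rw [one_div_mul_cancel hN0.ne', Real.rpow_one]
      field_simp
  have hinj : InjOn F (Ioi (0:ℝ)) := by
    intro x hx y hy hxy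
    rw [mem_Ioi] at hx hy
    have h1 : x ^ N = y ^ N := mul_left_cancel₀ hA.ne' hxy
    exact (pow_left_inj₀ hx.le hy.le (by omega)).1 h1
  have hder : ∀ x ∈ Ioi (0:ℝ), HasDerivWithinAt F (A * (N * x ^ (N - 1))) (Ioi 0) x := by
    intro x _
    exact ((hasDerivAt_pow N x).const_mul A).hasDerivWithinAt
  have h2 := lintegral_image_eq_lintegral_abs_deriv_mul measurableSet_Ioi hder hinj w
  rw [himg] at h2
  show _ = ∫⁻ r in Ioi (0:ℝ), w r
  rw [h2]
  refine setLIntegral_congr_fun measurableSet_Ioi fun x hx => ?_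
  rw [mem_Ioi] at hx
  show ENNReal.ofReal x * v (A * x ^ N) = ENNReal.ofReal |A * (N * x ^ (N - 1))| *
    (ENNReal.ofReal (A * x ^ N) *
      (ENNReal.ofReal ((A * x ^ N / A) ^ (2 / (N:ℝ)) / (N * (A * x ^ N) ^ 2)) * v (A * x ^ N)))
  rw [← mul_assoc, ← mul_assoc, ← ENNReal.ofReal_mul (by positivity),
    ← ENNReal.ofReal_mul (by positivity)]
  congr 2
  have h3 : A * x ^ N / A = x ^ N := by field_simp
  have h4 : (x ^ N) ^ (2 / (N:ℝ)) = x ^ 2 := by
    rw [← Real.rpow_natCast, ← Real.rpow_mul hx.le]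
    have : (N:ℝ) * (2 / N) = 2 := by field_simp
    rw [this]
    norm_cast
  rw [h3, h4, abs_of_nonneg (by positivity)]
  obtain ⟨k, rfl⟩ : ∃ k, N = k + 1 := ⟨N - 1, by omega⟩
  rw [Nat.add_sub_cancel]
  field_simp
  ring

end Pool.Agent.TH363.EX
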