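import Mathlib
import Pool.Prelude.Def_F_c31e40fa

/-! The maps `y ↦ ξ (1 + y / n) ^ n` and their limit `y ↦ ξ exp y`. -/

set_option autoImplicit false
open Filter Topology Metric Set

namespace Pool.Agent.TH363.EX

/-- The polynomial family in the coordinate `z = c (1 + y / n)`, where `ξ = n c ^ (n - 1)`. -/
noncomputable def G (n : ℕ) (ξ : ℂ) : ℂ → ℂ := fun y => ξ * (1 + y / n) ^ n

/-- The exponential family. -/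
noncomputable def E (ξ : ℂ) : ℂ → ℂ := fun y => ξ * Complex.exp y

/-- The derivative of `(G n ξ)^[m]`. -/
noncomputable def DG (n : ℕ) (ξ : ℂ) (m : ℕ) (y : ℂ) : ℂ :=
  ∏ j ∈ Finset.range m, ξ * (1 + (G n ξ)^[j] y / n) ^ (n - 1)

/-- The derivative of `(E ξ)^[m]`. -/
noncomputable def DE (ξ : ℂ) (m : ℕ) (y : ℂ) : ℂ :=
  ∏ j ∈ Finset.range m, ξ * Complex.exp ((E ξ)^[j] y)

theorem hasDeriv_G {n : ℕ} (hn : n ≠ 0) (ξ y : ℂ) :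
    HasDerivAt (G n ξ) (ξ * (1 + y / n) ^ (n - 1)) y := by
  have hn0 : (n : ℂ) ≠ 0 := by exact_mod_cast hn
  have h1 : HasDerivAt (fun y : ℂ => 1 + y / n) (1 / n) y := by
    simpa using ((hasDerivAt_id y).div_const (n : ℂ)).const_add 1
  have h2 := (h1.pow n).const_mul ξ
  refine h2.congr_deriv ?_
  field_simp

theorem hasDeriv_G_iter {n : ℕ} (hn : n ≠ 0) (ξ y : ℂ) (m : ℕ) :
    HasDerivAt (G n ξ)^[m] (DG n ξ m y) y := by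
  induction m with
  | zero =>
    simp only [DG, Finset.range_zero, Finset.prod_empty, Function.iterate_zero]
    exact hasDerivAt_id y
  | succ m ih =>
    rw [Function.iterate_succ']
    have h1 := (hasDeriv_G hn ξ ((G n ξ)^[m] y)).comp y ih
    refine h1.congr_deriv ?_
    rw [DG, DG, Finset.prod_range_succ]
    ring

theorem hasDeriv_E (ξ y : ℂ) : HasDerivAt (E ξ) (ξ * Complex.exp y) y :=
  (Complex.hasDerivAt_exp y).const_mul ξ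

theorem hasDeriv_E_iter (ξ y : ℂ) (m : ℕ) : HasDerivAt (E ξ)^[m] (DE ξ m y) y := by
  induction m with
  | zero =>
    simp only [DE, Finset.range_zero, Finset.prod_empty, Function.iterate_zero]
    exact hasDerivAt_id y
  | succ m ih =>
    rw [Function.iterate_succ']
    have h1 := (hasDeriv_E ξ ((E ξ)^[m] y)).comp y ih
    refine h1.congr_deriv ?_
    rw [DE, DE, Finset.prod_range_succ]
    ring

/-- Joint convergence of `n log (1 + y / n)`. -/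
theorem tendsto_mul_log (y₀ : ℂ) : Tendsto (fun p : ℕ × ℂ => (p.1 : ℂ) * Complex.log (1 + p.2 / p.1))
    (atTop ×ˢ 𝓝 y₀) (𝓝 y₀) := by
  have hn : Tendsto (fun p : ℕ × ℂ => (p.1 : ℝ)) (atTop ×ˢ 𝓝 y₀) atTop :=
    tendsto_natCast_atTop_atTop.comp tendsto_fst
  have hy : Tendsto (fun p : ℕ × ℂ => p.2) (atTop ×ˢ 𝓝 y₀) (𝓝 y₀) := tendsto_snd
  have hyn : Tendsto (fun p : ℕ × ℂ => ‖p.2‖) (atTop ×ˢ 𝓝 y₀) (𝓝 ‖y₀‖) := hy.norm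
  -- the error
  have herr : Tendsto (fun p : ℕ × ℂ => ‖p.2‖ ^ 2 / (p.1 : ℝ)) (atTop ×ˢ 𝓝 y₀) (𝓝 0) :=
    (hyn.pow 2).div_atTop hn
  have h1 : ∀ᶠ p : ℕ × ℂ in atTop ×ˢ 𝓝 y₀,
      ‖(p.1 : ℂ) * Complex.log (1 + p.2 / p.1) - p.2‖ ≤ ‖p.2‖ ^ 2 / (p.1 : ℝ) := by
    filter_upwards [hn.eventually_ge_atTop (2 * (‖y₀‖ + 1)),
      hyn.eventually_le_const (show ‖y₀‖ < ‖y₀‖ + 1 by linarith)] with p h1 h2
    have hp0 : (0:ℝ) < p.1 := by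
      have := norm_nonneg y₀
      linarith
    have hpc : (p.1 : ℂ) ≠ 0 := by
      have : (p.1 : ℝ) ≠ 0 := hp0.ne'
      exact_mod_cast this
    have h3 : ‖p.2 / (p.1:ℂ)‖ = ‖p.2‖ / p.1 := by
      rw [norm_div, Complex.norm_natCast]
    have h4 : ‖p.2‖ / (p.1:ℝ) ≤ 1 / 2 := by
      rw [div_le_iff₀ hp0]; linarith
    have h5 := Complex.norm_log_one_add_sub_self_le (z := p.2 / (p.1:ℂ)) (by rw [h3]; linarith)
    rw [h3] at h5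
    have h6 : (1 - ‖p.2‖ / (p.1:ℝ))⁻¹ ≤ 2 := by
      rw [inv_le_comm₀ (by linarith) (by norm_num)]
      linarith
    have h7 : (p.1 : ℂ) * Complex.log (1 + p.2 / p.1) - p.2 =
        p.1 * (Complex.log (1 + p.2 / p.1) - p.2 / p.1) := by
      field_simp
    rw [h7, norm_mul, Complex.norm_natCast]
    calc (p.1:ℝ) * ‖Complex.log (1 + p.2 / p.1) - p.2 / p.1‖
        ≤ p.1 * ((‖p.2‖ / p.1) ^ 2 * (1 - ‖p.2‖ / (p.1:ℝ))⁻¹ / 2) := by gcongr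
      _ ≤ p.1 * ((‖p.2‖ / p.1) ^ 2 * 2 / 2) := by gcongr
      _ = ‖p.2‖ ^ 2 / (p.1 : ℝ) := by field_simp
  have h2 : Tendsto (fun p : ℕ × ℂ => (p.1 : ℂ) * Complex.log (1 + p.2 / p.1) - p.2)
      (atTop ×ˢ 𝓝 y₀) (𝓝 0) := squeeze_zero_norm' h1 herr
  simpa using h2.add hy

theorem tendsto_pow_exp (y₀ : ℂ) : Tendsto (fun p : ℕ × ℂ => (1 + p.2 / (p.1:ℂ)) ^ p.1)
    (atTop ×ˢ 𝓝 y₀) (𝓝 (Complex.exp y₀)) := by
  have hn : Tendsto (fun p : ℕ × ℂ => (p.1 : ℝ)) (atTop ×ˢ 𝓝 y₀) atTop :=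
    tendsto_natCast_atTop_atTop.comp tendsto_fst
  have hyn : Tendsto (fun p : ℕ × ℂ => ‖p.2‖) (atTop ×ˢ 𝓝 y₀) (𝓝 ‖y₀‖) := tendsto_snd.norm
  have h1 := (Complex.continuous_exp.tendsto y₀).comp (tendsto_mul_log y₀)
  refine h1.congr' ?_
  filter_upwards [hn.eventually_ge_atTop (2 * (‖y₀‖ + 1)),
      hyn.eventually_le_const (show ‖y₀‖ < ‖y₀‖ + 1 by linarith)] with p h1 h2
  have hp0 : (0:ℝ) < p.1 := by
    have := norm_nonneg y₀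
    linarith
  have h3 : ‖p.2 / (p.1:ℂ)‖ = ‖p.2‖ / p.1 := by
    rw [norm_div, Complex.norm_natCast]
  have h4 : ‖p.2‖ / (p.1:ℝ) ≤ 1 / 2 := by
    rw [div_le_iff₀ hp0]; linarith
  have h5 : 1 + p.2 / (p.1:ℂ) ≠ 0 := by
    intro h
    have h6 : p.2 / (p.1:ℂ) = -1 := by linear_combination h
    rw [h6, norm_neg, norm_one] at h3
    linarith
  show Complex.exp ((p.1 : ℂ) * Complex.log (1 + p.2 / p.1)) = _
  rw [Complex.exp_nat_mul, Complex.exp_log h5]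

theorem tendsto_div_nat (y₀ : ℂ) : Tendsto (fun p : ℕ × ℂ => 1 + p.2 / (p.1:ℂ))
    (atTop ×ˢ 𝓝 y₀) (𝓝 1) := by
  have hn : Tendsto (fun p : ℕ × ℂ => (p.1 : ℝ)) (atTop ×ˢ 𝓝 y₀) atTop :=
    tendsto_natCast_atTop_atTop.comp tendsto_fst
  have hyn : Tendsto (fun p : ℕ × ℂ => ‖p.2‖) (atTop ×ˢ 𝓝 y₀) (𝓝 ‖y₀‖) := tendsto_snd.norm
  have h1 : Tendsto (fun p : ℕ × ℂ => p.2 / (p.1:ℂ)) (atTop ×ˢ 𝓝 y₀) (𝓝 0) := by
    rw [tendsto_zero_iff_norm_tendsto_zero]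
    have := hyn.div_atTop hn
    refine this.congr fun p => ?_
    rw [norm_div, Complex.norm_natCast]
  simpa using h1.const_add 1

theorem tendsto_pow_exp' (y₀ : ℂ) : Tendsto (fun p : ℕ × ℂ => (1 + p.2 / (p.1:ℂ)) ^ (p.1 - 1))
    (atTop ×ˢ 𝓝 y₀) (𝓝 (Complex.exp y₀)) := by
  have h1 := (tendsto_pow_exp y₀).div (tendsto_div_nat y₀) one_ne_zero
  rw [div_one] at h1
  refine h1.congr' ?_
  have h2 : ∀ᶠ p : ℕ × ℂ in atTop ×ˢ 𝓝 y₀, 1 + p.2 / (p.1:ℂ) ≠ 0 :=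
    (tendsto_div_nat y₀).eventually_ne one_ne_zero
  have h3 : ∀ᶠ p : ℕ × ℂ in atTop ×ˢ 𝓝 y₀, 1 ≤ p.1 := tendsto_fst.eventually_ge_atTop 1
  filter_upwards [h2, h3] with p h2 h3
  obtain ⟨k, hk⟩ : ∃ k, p.1 = k + 1 := ⟨p.1 - 1, by omega⟩
  show (1 + p.2 / (p.1:ℂ)) ^ p.1 / (1 + p.2 / (p.1:ℂ)) = _
  rw [hk, Nat.add_sub_cancel, pow_succ]
  rw [hk] at h2
  exact mul_div_cancel_right₀ _ h2

/-- Joint convergence of the iterates. -/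
theorem tendsto_iter (m : ℕ) (ξ₀ y₀ : ℂ) :
    Tendsto (fun p : ℕ × ℂ × ℂ => (G p.1 p.2.1)^[m] p.2.2) (atTop ×ˢ 𝓝 (ξ₀, y₀))
      (𝓝 ((E ξ₀)^[m] y₀)) := by
  induction m with
  | zero =>
    simp only [Function.iterate_zero, id]
    exact ((continuous_snd.tendsto (ξ₀, y₀)).comp tendsto_snd)
  | succ m ih =>
    simp only [Function.iterate_succ_apply']
    have h1 : Tendsto (fun p : ℕ × ℂ × ℂ => (p.1, (G p.1 p.2.1)^[m] p.2.2)) (atTop ×ˢ 𝓝 (ξ₀, y₀))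
        (atTop ×ˢ 𝓝 ((E ξ₀)^[m] y₀)) := tendsto_fst.prodMk ih
    have h2 := (tendsto_pow_exp ((E ξ₀)^[m] y₀)).comp h1
    have h3 : Tendsto (fun p : ℕ × ℂ × ℂ => p.2.1) (atTop ×ˢ 𝓝 (ξ₀, y₀)) (𝓝 ξ₀) :=
      ((continuous_fst.tendsto (ξ₀, y₀)).comp tendsto_snd)
    exact h3.mul h2

theorem tendsto_DG (m : ℕ) (ξ₀ y₀ : ℂ) :
    Tendsto (fun p : ℕ × ℂ × ℂ => DG p.1 p.2.1 m p.2.2) (atTop ×ˢ 𝓝 (ξ₀, y₀))
      (𝓝 (DE ξ₀ m y₀)) := by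
  unfold DG DE
  refine tendsto_finsetProd _ fun j _ => ?_
  have h1 : Tendsto (fun p : ℕ × ℂ × ℂ => (p.1, (G p.1 p.2.1)^[j] p.2.2)) (atTop ×ˢ 𝓝 (ξ₀, y₀))
      (atTop ×ˢ 𝓝 ((E ξ₀)^[j] y₀)) := tendsto_fst.prodMk (tendsto_iter j ξ₀ y₀)
  have h2 := (tendsto_pow_exp' ((E ξ₀)^[j] y₀)).comp h1
  have h3 : Tendsto (fun p : ℕ × ℂ × ℂ => p.2.1) (atTop ×ˢ 𝓝 (ξ₀, y₀)) (𝓝 ξ₀) :=
    ((continuous_fst.tendsto (ξ₀, y₀)).comp tendsto_snd)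
  exact h3.mul h2

end Pool.Agent.TH363.EX
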