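import Mathlib
import Pool.Prelude.Def_F_c31e40fa
import Pool.Agent.TH363.EX.Lim

/-! The conjugacy between `z ^ n + c` and `G n (n c ^ (n - 1))`. -/

set_option autoImplicit false
open Filter Topology Metric Set

namespace Pool.Agent.TH363.EX

theorem conj_iter {n : ℕ} (hn : 1 ≤ n) (c y : ℂ) (m : ℕ) :
    (fun z => z ^ n + c)^[m] (c * (1 + y / n)) =
      c * (1 + (G n (n * c ^ (n - 1)))^[m] y / n) := by
  have hn0 : (n : ℂ) ≠ 0 := by
    have : n ≠ 0 := by omega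
    exact_mod_cast this
  induction m with
  | zero => rfl
  | succ m ih =>
    rw [Function.iterate_succ_apply', Function.iterate_succ_apply', ih]
    show (c * (1 + _ / n)) ^ n + c = c * (1 + (n * c ^ (n - 1) * (1 + _ / n) ^ n) / n)
    obtain ⟨k, rfl⟩ : ∃ k, n = k + 1 := ⟨n - 1, by omega⟩
    rw [Nat.add_sub_cancel, mul_pow, pow_succ c k]
    field_simp
    ring

theorem conj_deriv {n : ℕ} (hn : 1 ≤ n) (c y : ℂ) (m : ℕ) :
    HasDerivAt (fun z => z ^ n + c)^[m] (DG n (n * c ^ (n - 1)) m y) (c * (1 + y / n)) := by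
  induction m with
  | zero =>
    simp only [DG, Finset.range_zero, Finset.prod_empty, Function.iterate_zero]
    exact hasDerivAt_id _
  | succ m ih =>
    rw [Function.iterate_succ']
    have h1 : HasDerivAt (fun z : ℂ => z ^ n + c)
        (n * ((fun z => z ^ n + c)^[m] (c * (1 + y / n))) ^ (n - 1))
        ((fun z => z ^ n + c)^[m] (c * (1 + y / n))) := (hasDerivAt_pow n _).add_const c
    have h2 := h1.comp _ ih
    refine h2.congr_deriv ?_
    rw [conj_iter hn, DG, DG, Finset.prod_range_succ, mul_pow]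
    ring

/-- Attracting cycles in the two coordinates. -/
theorem conj_iff {n m : ℕ} (hn : 1 ≤ n) {c : ℂ} (hc : c ≠ 0) {q : ℝ} :
    (∃ z, N62a1eb23.IsAttractingCycle (fun z => z ^ n + c) m z ∧
        ‖deriv (fun z => z ^ n + c)^[m] z‖ ≤ q) ↔
      (0 < m ∧ ∃ y, (G n (n * c ^ (n - 1)))^[m] y = y ∧ ‖DG n (n * c ^ (n - 1)) m y‖ < 1 ∧
        ‖DG n (n * c ^ (n - 1)) m y‖ ≤ q) := by
  have hn0 : (n : ℂ) ≠ 0 := by
    have : n ≠ 0 := by omega
    exact_mod_cast this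
  constructor
  · rintro ⟨z, ⟨hm, hper, -, hlt⟩, hq⟩
    obtain ⟨y, rfl⟩ : ∃ y : ℂ, z = c * (1 + y / n) := ⟨n * (z / c - 1), by field_simp; ring⟩
    have h1 : (fun z => z ^ n + c)^[m] (c * (1 + y / n)) = c * (1 + y / n) := hper
    rw [conj_iter hn] at h1
    rw [(conj_deriv hn c y m).deriv] at hlt hq
    refine ⟨hm, y, ?_, hlt, hq⟩
    have h2 := mul_left_cancel₀ hc h1
    have h3 := add_left_cancel h2
    field_simp at h3
    exact h3
  · rintro ⟨hm, y, hper, hlt, hq⟩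
    refine ⟨c * (1 + y / n), ⟨hm, ?_, (conj_deriv hn c y m).differentiableAt, ?_⟩, ?_⟩
    · show (fun z => z ^ n + c)^[m] (c * (1 + y / n)) = c * (1 + y / n)
      rw [conj_iter hn, hper]
    · rw [(conj_deriv hn c y m).deriv]
      exact hlt
    · rw [(conj_deriv hn c y m).deriv]
      exact hq

/-- Attracting cycles of the exponential maps. -/
theorem exp_iff {m : ℕ} {ξ : ℂ} {q : ℝ} :
    (∃ y, N62a1eb23.IsAttractingCycle (E ξ) m y ∧ ‖deriv (E ξ)^[m] y‖ ≤ q) ↔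
      (0 < m ∧ ∃ y, (E ξ)^[m] y = y ∧ ‖DE ξ m y‖ < 1 ∧ ‖DE ξ m y‖ ≤ q) := by
  constructor
  · rintro ⟨y, ⟨hm, hper, -, hlt⟩, hq⟩
    rw [(hasDeriv_E_iter ξ y m).deriv] at hlt hq
    exact ⟨hm, y, hper, hlt, hq⟩
  · rintro ⟨hm, y, hper, hlt, hq⟩
    refine ⟨y, ⟨hm, hper, (hasDeriv_E_iter ξ y m).differentiableAt, ?_⟩, ?_⟩
    · rw [(hasDeriv_E_iter ξ y m).deriv]
      exact hlt
    · rw [(hasDeriv_E_iter ξ y m).deriv]
      exact hq

end Pool.Agent.TH363.EX
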