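import Mathlib
import Pool.Agent.TH363.EX.Lim
import Pool.Agent.H749R2.Hyp1

/-! Stability of attracting cycles under the convergence of `ξ (1 + y / n) ^ n` to `ξ exp y`. -/

set_option autoImplicit false
open Filter Topology Metric Set

namespace Pool.Agent.TH363.EX

/-- `G n ξ` has an attracting cycle of period at most `p` with multiplier at most `1 - 1 / p`. -/
def HG (n p : ℕ) (ξ : ℂ) : Prop :=
  ∃ m, 1 ≤ m ∧ m ≤ p ∧ ∃ y, (G n ξ)^[m] y = y ∧ ‖DG n ξ m y‖ ≤ 1 - 1 / p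

/-- `E ξ` has an attracting cycle of period at most `p` with multiplier at most `1 - 1 / p`. -/
def HE (p : ℕ) (ξ : ℂ) : Prop :=
  ∃ m, 1 ≤ m ∧ m ≤ p ∧ ∃ y, (E ξ)^[m] y = y ∧ ‖DE ξ m y‖ ≤ 1 - 1 / p

/-- An attracting cycle of the exponential map is stable. -/
theorem stable {ξ₀ y₀ : ℂ} {m : ℕ} {q : ℝ} (hq1 : q < 1) (hper : (E ξ₀)^[m] y₀ = y₀)
    (hq : ‖DE ξ₀ m y₀‖ < q) :
    ∀ᶠ x : ℕ × ℂ in atTop ×ˢ 𝓝 ξ₀, ∃ y, (G x.1 x.2)^[m] y = y ∧ ‖DG x.1 x.2 m y‖ ≤ q := by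
  have hq0 : 0 ≤ q := (norm_nonneg _).trans hq.le
  have h1 : ∀ᶠ p : ℕ × ℂ × ℂ in atTop ×ˢ 𝓝 (ξ₀, y₀), ‖DG p.1 p.2.1 m p.2.2‖ < q :=
    (tendsto_DG m ξ₀ y₀).norm.eventually_lt_const hq
  rw [eventually_prod_iff] at h1
  obtain ⟨pa, hpa, pb, hpb, h1⟩ := h1
  rw [Metric.eventually_nhds_iff] at hpb
  obtain ⟨δ, hδ, hpb⟩ := hpb
  set r : ℝ := δ / 2 with hr
  have hr0 : 0 < r := by rw [hr]; linarith
  have hrδ : r < δ := by rw [hr]; linarith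
  have h2 : Tendsto (fun x : ℕ × ℂ => (G x.1 x.2)^[m] y₀) (atTop ×ˢ 𝓝 ξ₀) (𝓝 y₀) := by
    have h3 : Tendsto (fun x : ℕ × ℂ => (x.1, (x.2, y₀))) (atTop ×ˢ 𝓝 ξ₀)
        (atTop ×ˢ 𝓝 (ξ₀, y₀)) := by
      refine tendsto_fst.prodMk ?_
      rw [nhds_prod_eq]
      exact tendsto_snd.prodMk tendsto_const_nhds
    have h4 := (tendsto_iter m ξ₀ y₀).comp h3
    rw [hper] at h4
    exact h4
  have h3 : ∀ᶠ x : ℕ × ℂ in atTop ×ˢ 𝓝 ξ₀, dist ((G x.1 x.2)^[m] y₀) y₀ < (1 - q) * r := by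
    have : 0 < (1 - q) * r := mul_pos (by linarith) hr0
    exact (Metric.tendsto_nhds.1 h2) _ this
  have h4 : ∀ᶠ x : ℕ × ℂ in atTop ×ˢ 𝓝 ξ₀, pa x.1 := tendsto_fst.eventually hpa
  have h5 : ∀ᶠ x : ℕ × ℂ in atTop ×ˢ 𝓝 ξ₀, dist x.2 ξ₀ < δ :=
    tendsto_snd.eventually (Metric.ball_mem_nhds ξ₀ hδ)
  have h6 : ∀ᶠ x : ℕ × ℂ in atTop ×ˢ 𝓝 ξ₀, 1 ≤ x.1 := tendsto_fst.eventually_ge_atTop 1
  filter_upwards [h3, h4, h5, h6] with x h3 h4 h5 h6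
  have hn : x.1 ≠ 0 := by omega
  have hder : ∀ y ∈ closedBall y₀ r, ‖deriv (G x.1 x.2)^[m] y‖ ≤ q := by
    intro y hy
    rw [(hasDeriv_G_iter hn x.2 y m).deriv]
    refine (h1 (x := x.1) h4 (y := (x.2, y)) (hpb ?_)).le
    rw [Prod.dist_eq]
    refine max_lt h5 ?_
    rw [mem_closedBall] at hy
    exact hy.trans_lt hrδ
  have hd : Differentiable ℂ (G x.1 x.2)^[m] :=
    fun y => (hasDeriv_G_iter hn x.2 y m).differentiableAt
  have hmaps : MapsTo (G x.1 x.2)^[m] (closedBall y₀ r) (closedBall y₀ r) := by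
    intro y hy
    have h7 := (convex_closedBall y₀ r).norm_image_sub_le_of_norm_deriv_le
      (f := (G x.1 x.2)^[m]) (C := q) (fun z _ => hd z) hder (mem_closedBall_self hr0.le) hy
    rw [mem_closedBall, dist_eq_norm] at hy
    rw [mem_closedBall]
    calc dist ((G x.1 x.2)^[m] y) y₀ ≤ dist ((G x.1 x.2)^[m] y) ((G x.1 x.2)^[m] y₀) +
          dist ((G x.1 x.2)^[m] y₀) y₀ := dist_triangle _ _ _
      _ ≤ q * r + (1 - q) * r := by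
          rw [dist_eq_norm]
          have h8 : q * ‖y - y₀‖ ≤ q * r := mul_le_mul_of_nonneg_left hy hq0
          linarith
      _ = r := by ring
  obtain ⟨z, hz, hfix, -⟩ := Pool.Agent.H749R2.Hyp.fixed_of_contr hr0.le hq0 hq1 hd hmaps hder
  refine ⟨z, hfix, ?_⟩
  rw [← (hasDeriv_G_iter hn x.2 z m).deriv]
  exact hder z hz

/-- Attracting exponential parameters. -/
theorem stable_HE {p : ℕ} {ξ₀ : ℂ} (h : HE p ξ₀) :
    ∀ᶠ x : ℕ × ℂ in atTop ×ˢ 𝓝 ξ₀, HG x.1 (p + 1) x.2 := by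
  obtain ⟨m, hm1, hmp, y, hper, hmul⟩ := h
  have hp1 : (1:ℝ) ≤ p := by exact_mod_cast hm1.trans hmp
  have h1 : (1:ℝ) - 1 / p < 1 - 1 / ((p + 1 : ℕ) : ℝ) := by
    push_cast
    have : 1 / ((p:ℝ) + 1) < 1 / p := one_div_lt_one_div_of_lt (by linarith) (by linarith)
    linarith
  have h2 : (1:ℝ) - 1 / ((p + 1 : ℕ) : ℝ) < 1 := by
    have : (0:ℝ) < 1 / ((p + 1 : ℕ) : ℝ) := by positivity
    linarith
  filter_upwards [stable h2 hper (hmul.trans_lt h1)] with x hx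
  exact ⟨m, hm1, by omega, hx⟩

/-- Limits of periodic points in a compact set. -/
theorem closed_aux {ι : Type} {𝓛 : Filter ι} {F D : ι → ℂ → ℂ} {F' D' : ℂ → ℂ} {q : ℝ}
    (hF : ∀ y, Tendsto (fun x : ι × ℂ => F x.1 x.2) (𝓛 ×ˢ 𝓝 y) (𝓝 (F' y)))
    (hD : ∀ y, Tendsto (fun x : ι × ℂ => D x.1 x.2) (𝓛 ×ˢ 𝓝 y) (𝓝 (D' y)))
    (h : ∃ᶠ x in 𝓛, ∃ y, ‖y‖ ≤ 2 ∧ F x y = y ∧ ‖D x y‖ ≤ q) :
    ∃ y, ‖y‖ ≤ 2 ∧ F' y = y ∧ ‖D' y‖ ≤ q := by
  classical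
  set S : Set ι := {x | ∃ y, ‖y‖ ≤ 2 ∧ F x y = y ∧ ‖D x y‖ ≤ q} with hS
  have hne : (𝓛 ⊓ 𝓟 S).NeBot := frequently_mem_iff_neBot.1 h
  set U : Ultrafilter ι := Ultrafilter.of (𝓛 ⊓ 𝓟 S) with hU
  have hU1 : (U : Filter ι) ≤ 𝓛 ⊓ 𝓟 S := Ultrafilter.of_le _
  have hU2 : (U : Filter ι) ≤ 𝓛 := hU1.trans inf_le_left
  have hU3 : ∀ᶠ x in (U : Filter ι), x ∈ S := (le_principal_iff.1 (hU1.trans inf_le_right))
  set y : ι → ℂ := fun x => if hx : x ∈ S then hx.choose else 0 with hy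
  have hyS : ∀ x ∈ S, ‖y x‖ ≤ 2 ∧ F x (y x) = y x ∧ ‖D x (y x)‖ ≤ q := by
    intro x hx
    rw [hy]
    simp only [dif_pos hx]
    exact hx.choose_spec
  have hcomp : IsCompact (closedBall (0:ℂ) 2) := isCompact_closedBall 0 2
  obtain ⟨z, hz, hlim⟩ := hcomp.ultrafilter_le_nhds (U.map y) (by
    rw [le_principal_iff]
    show ∀ᶠ x in (U : Filter ι), y x ∈ closedBall (0:ℂ) 2
    filter_upwards [hU3] with x hx
    rw [mem_closedBall, dist_zero_right]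
    exact (hyS x hx).1)
  have hlim' : Tendsto y U (𝓝 z) := hlim
  have h1 : Tendsto (fun x => (x, y x)) (U : Filter ι) (𝓛 ×ˢ 𝓝 z) :=
    (tendsto_id.mono_left hU2).prodMk hlim'
  have hF1 := (hF z).comp h1
  have hD1 := (hD z).comp h1
  refine ⟨z, by rwa [mem_closedBall, dist_zero_right] at hz, ?_, ?_⟩
  · refine tendsto_nhds_unique (hF1.congr' ?_) hlim'
    filter_upwards [hU3] with x hx
    exact (hyS x hx).2.1
  · refine le_of_tendsto hD1.norm ?_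
    filter_upwards [hU3] with x hx
    exact (hyS x hx).2.2

/-- The multiplier does not depend on the point of the cycle. -/
theorem DG_shift {n m : ℕ} {ξ y : ℂ} (hm : 1 ≤ m) (h : (G n ξ)^[m] y = y) :
    DG n ξ m (G n ξ y) = DG n ξ m y := by
  obtain ⟨k, rfl⟩ : ∃ k, m = k + 1 := ⟨m - 1, by omega⟩
  rw [DG, DG, Finset.prod_range_succ, Finset.prod_range_succ']
  simp only [← Function.iterate_succ_apply]
  rw [h]
  rfl

theorem cycle_shift {n m : ℕ} {ξ y : ℂ} (hm : 1 ≤ m) (h : (G n ξ)^[m] y = y) (j : ℕ) :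
    (G n ξ)^[m] ((G n ξ)^[j] y) = (G n ξ)^[j] y ∧ DG n ξ m ((G n ξ)^[j] y) = DG n ξ m y := by
  induction j with
  | zero => exact ⟨h, rfl⟩
  | succ j ih =>
    rw [Function.iterate_succ_apply']
    refine ⟨?_, ?_⟩
    · rw [← Function.iterate_succ_apply, Function.iterate_succ_apply', ih.1]
    · rw [DG_shift hm ih.1, ih.2]

/-- A cycle which is not repelling contains a point of modulus at most `2`. -/
theorem exists_small {n m : ℕ} {ξ y : ℂ} (hn : 2 ≤ n) (hm : 1 ≤ m) (h : (G n ξ)^[m] y = y)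
    (hmul : ‖DG n ξ m y‖ ≤ 1) : ∃ j, ‖(G n ξ)^[j] y‖ ≤ 2 := by
  by_contra hcon
  push Not at hcon
  have hnR : (2:ℝ) ≤ n := by exact_mod_cast hn
  have h1 : ∏ j ∈ Finset.range m, (G n ξ)^[j + 1] y =
      DG n ξ m y * ∏ j ∈ Finset.range m, (1 + (G n ξ)^[j] y / n) := by
    rw [DG, ← Finset.prod_mul_distrib]
    refine Finset.prod_congr rfl fun j _ => ?_
    rw [Function.iterate_succ_apply']
    show ξ * (1 + (G n ξ)^[j] y / n) ^ n = _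
    obtain ⟨k, rfl⟩ : ∃ k, n = k + 1 := ⟨n - 1, by omega⟩
    rw [Nat.add_sub_cancel, pow_succ]
    ring
  have h2 : ∏ j ∈ Finset.range m, (G n ξ)^[j + 1] y = ∏ j ∈ Finset.range m, (G n ξ)^[j] y := by
    obtain ⟨k, rfl⟩ : ∃ k, m = k + 1 := ⟨m - 1, by omega⟩
    rw [Finset.prod_range_succ, Finset.prod_range_succ', h]
    rfl
  rw [h2] at h1
  have h3 := congrArg norm h1
  rw [norm_mul, norm_prod, norm_prod] at h3
  have h4 : ∏ j ∈ Finset.range m, ‖1 + (G n ξ)^[j] y / n‖ <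
      ∏ j ∈ Finset.range m, ‖(G n ξ)^[j] y‖ := by
    have h5 : ∏ j ∈ Finset.range m, ‖1 + (G n ξ)^[j] y / n‖ ≤
        ∏ j ∈ Finset.range m, (1 + ‖(G n ξ)^[j] y‖ / 2) := by
      refine Finset.prod_le_prod (fun j _ => norm_nonneg _) fun j _ => ?_
      refine (norm_add_le _ _).trans ?_
      rw [norm_one, norm_div, Complex.norm_natCast]
      gcongr
    refine h5.trans_lt ?_
    refine Finset.prod_lt_prod_of_nonempty (fun j _ => by positivity) (fun j _ => ?_)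
      (by simpa using (by omega : m ≠ 0))
    have := hcon j
    linarith
  have h6 : 0 ≤ ∏ j ∈ Finset.range m, ‖1 + (G n ξ)^[j] y / n‖ :=
    Finset.prod_nonneg fun j _ => norm_nonneg _
  have h7 : ‖DG n ξ m y‖ * ∏ j ∈ Finset.range m, ‖1 + (G n ξ)^[j] y / n‖ ≤
      1 * ∏ j ∈ Finset.range m, ‖1 + (G n ξ)^[j] y / n‖ := by gcongr
  rw [one_mul] at h7
  linarith

theorem HG_small {n p : ℕ} {ξ : ℂ} (hn : 2 ≤ n) (h : HG n p ξ) :
    ∃ m, 1 ≤ m ∧ m ≤ p ∧ ∃ y, ‖y‖ ≤ 2 ∧ (G n ξ)^[m] y = y ∧ ‖DG n ξ m y‖ ≤ 1 - 1 / p := by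
  obtain ⟨m, hm1, hmp, y, hper, hmul⟩ := h
  have hp : (0:ℝ) ≤ 1 / p := by positivity
  obtain ⟨j, hj⟩ := exists_small hn hm1 hper (hmul.trans (by linarith))
  obtain ⟨h1, h2⟩ := cycle_shift hm1 hper j
  exact ⟨m, hm1, hmp, _, hj, h1, by rw [h2]; exact hmul⟩

/-- The pigeonhole principle. -/
theorem pigeon {ι : Type} {𝓛 : Filter ι} {p : ℕ} {Q : ℕ → ι → Prop}
    (h : ∃ᶠ x in 𝓛, ∃ m, 1 ≤ m ∧ m ≤ p ∧ Q m x) : ∃ m, 1 ≤ m ∧ m ≤ p ∧ ∃ᶠ x in 𝓛, Q m x := by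
  by_contra hcon
  push Not at hcon
  apply h
  have h1 : ∀ᶠ x in 𝓛, ∀ m ∈ Set.Icc 1 p, ¬ Q m x := by
    rw [eventually_all_finite (Set.finite_Icc 1 p)]
    intro m hm
    exact hcon m hm.1 hm.2
  filter_upwards [h1] with x hx
  rintro ⟨m, h2, h3, h4⟩
  exact hx m ⟨h2, h3⟩ h4

/-- Limits of attracting cycles of bounded periods with multipliers bounded away from `1`. -/
theorem closed_HE {p : ℕ} {ξ₀ : ℂ} (h : ∃ᶠ x : ℕ × ℂ in atTop ×ˢ 𝓝 ξ₀, HG x.1 p x.2) :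
    HE p ξ₀ := by
  have h2 : ∀ᶠ x : ℕ × ℂ in atTop ×ˢ 𝓝 ξ₀, 2 ≤ x.1 := tendsto_fst.eventually_ge_atTop 2
  have h3 := pigeon ((h.and_eventually h2).mono fun x hx => HG_small hx.2 hx.1)
  obtain ⟨m, hm1, hmp, h4⟩ := h3
  have hassoc : ∀ y : ℂ, Tendsto (fun x : (ℕ × ℂ) × ℂ => (x.1.1, (x.1.2, x.2)))
      ((atTop ×ˢ 𝓝 ξ₀) ×ˢ 𝓝 y) (atTop ×ˢ 𝓝 (ξ₀, y)) := by
    intro y
    refine (tendsto_fst.comp tendsto_fst).prodMk ?_
    rw [nhds_prod_eq]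
    exact (tendsto_snd.comp tendsto_fst).prodMk tendsto_snd
  obtain ⟨y, -, h5, h6⟩ := closed_aux (ι := ℕ × ℂ) (F := fun x => (G x.1 x.2)^[m])
    (D := fun x => DG x.1 x.2 m) (F' := (E ξ₀)^[m]) (D' := DE ξ₀ m)
    (fun y => (tendsto_iter m ξ₀ y).comp (hassoc y)) (fun y => (tendsto_DG m ξ₀ y).comp (hassoc y))
    h4
  exact ⟨m, hm1, hmp, y, h5, h6⟩

theorem cont_G (n m : ℕ) : Continuous fun x : ℂ × ℂ => (G n x.1)^[m] x.2 := by
  induction m with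
  | zero => exact continuous_snd
  | succ m ih =>
    simp only [Function.iterate_succ_apply']
    unfold G at ih ⊢
    fun_prop

theorem cont_DG (n m : ℕ) : Continuous fun x : ℂ × ℂ => DG n x.1 m x.2 := by
  unfold DG
  refine continuous_finsetProd _ fun j _ => ?_
  have := cont_G n j
  fun_prop

/-- For fixed `n` the parameters with an attracting cycle of bounded period, with multiplier
bounded away from `1`, form a closed set. -/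
theorem isClosed_HG {n p : ℕ} (hn : 2 ≤ n) : IsClosed {ξ : ℂ | HG n p ξ} := by
  rw [isClosed_iff_frequently]
  intro ξ₀ h
  have h3 := pigeon (h.mono fun x hx => HG_small hn hx)
  obtain ⟨m, hm1, hmp, h4⟩ := h3
  obtain ⟨y, -, h5, h6⟩ := closed_aux (ι := ℂ) (F := fun x => (G n x)^[m])
    (D := fun x => DG n x m) (F' := (G n ξ₀)^[m]) (D' := DG n ξ₀ m)
    (fun y => by
      rw [← nhds_prod_eq]
      exact (cont_G n m).tendsto (ξ₀, y))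
    (fun y => by
      rw [← nhds_prod_eq]
      exact (cont_DG n m).tendsto (ξ₀, y)) h4
  exact ⟨m, hm1, hmp, y, h5, h6⟩

end Pool.Agent.TH363.EX
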