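import Mathlib
import Pool.Agent.TH363.EX.Stab
import Pool.Agent.TH363.EX.Chg
import Pool.Agent.TH363.EX.Conj

/-! The rescaled area. -/

set_option autoImplicit false
open Filter Topology Metric Set MeasureTheory
open scoped ENNReal

namespace Pool.Agent.TH363.EX

/-- The logarithmic area. -/
noncomputable def logArea (S : Set ℂ) : ℝ≥0∞ := ∫⁻ ξ in S, ENNReal.ofReal (1 / ‖ξ‖ ^ 2)

/-- An annulus. -/
def ann (a b : ℝ) : Set ℂ := {ξ | a ≤ ‖ξ‖ ∧ ‖ξ‖ ≤ b}

/-- The hyperbolic parameters of the exponential family. -/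
def expHyp : Set ℂ := {ξ | ∃ p, HE p ξ}

theorem isClosed_ann (a b : ℝ) : IsClosed (ann a b) :=
  (isClosed_le continuous_const continuous_norm).inter
    (isClosed_le continuous_norm continuous_const)

theorem meas_ann (a b : ℝ) : MeasurableSet (ann a b) := (isClosed_ann a b).measurableSet

theorem logArea_mono {S T : Set ℂ} (h : S ⊆ T) : logArea S ≤ logArea T :=
  lintegral_mono_set h

theorem logArea_ann_lt {a : ℝ} (ha : 0 < a) (b : ℝ) : logArea (ann a b) < ∞ := by
  have h1 : logArea (ann a b) ≤ ∫⁻ _ in ann a b, ENNReal.ofReal (1 / a ^ 2) := by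
    refine setLIntegral_mono measurable_const fun ξ hξ => ?_
    apply ENNReal.ofReal_le_ofReal
    have := hξ.1
    gcongr
  refine h1.trans_lt ?_
  rw [lintegral_const, Measure.restrict_apply_univ]
  refine ENNReal.mul_lt_top ENNReal.ofReal_lt_top ?_
  have : ann a b ⊆ closedBall 0 b := fun ξ hξ => by
    rw [mem_closedBall, dist_zero_right]; exact hξ.2
  exact (measure_mono this).trans_lt measure_closedBall_lt_top

/-- The logarithmic area as a measure. -/
noncomputable def mu : Measure ℂ := volume.withDensity fun ξ => ENNReal.ofReal (1 / ‖ξ‖ ^ 2)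

theorem mu_eq {S : Set ℂ} (hS : MeasurableSet S) : mu S = logArea S := by
  rw [mu, withDensity_apply _ hS]
  rfl

/-- The area of the preimage. -/
theorem vol_pre {S : Set ℂ} (hS : MeasurableSet S) {n : ℕ} (hn : 2 ≤ n) :
    (n:ℝ≥0∞) * volume {c : ℂ | (n:ℂ) * c ^ (n - 1) ∈ S} =
      ∫⁻ ξ in S, ENNReal.ofReal (n / (n - 1) * (‖ξ‖ / n) ^ (2 / ((n:ℝ) - 1))) *
        ENNReal.ofReal (1 / ‖ξ‖ ^ 2) := by
  have hnR : (2:ℝ) ≤ n := by exact_mod_cast hn
  have hn0 : (0:ℝ) < n := by linarith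
  have hcast : ((n - 1 : ℕ) : ℝ) = (n:ℝ) - 1 := by
    rw [Nat.cast_sub (by omega)]; simp
  have h1 := chg hS (show 1 ≤ n - 1 by omega) hn0
  have h2 : {c : ℂ | (n:ℂ) * c ^ (n - 1) ∈ S} = {c : ℂ | ((n:ℝ):ℂ) * c ^ (n - 1) ∈ S} := by
    norm_cast
  rw [h2, h1, ← ENNReal.ofReal_natCast, ← lintegral_const_mul _ (by fun_prop), hcast]
  refine lintegral_congr fun ξ => ?_
  rw [← ENNReal.ofReal_mul hn0.le, ← ENNReal.ofReal_mul (by
    have : 0 < (n:ℝ) - 1 := by linarith
    positivity)]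
  congr 1
  have h3 : (n:ℝ) - 1 ≠ 0 := by linarith
  field_simp

/-- The factor tends to `1`. -/
theorem factor_tendsto {b : ℝ} (hb : 0 < b) :
    Tendsto (fun n : ℕ => (n:ℝ) / (n - 1) * (b / n) ^ (2 / ((n:ℝ) - 1))) atTop (𝓝 1) := by
  have hn : Tendsto (fun n : ℕ => (n:ℝ)) atTop atTop := tendsto_natCast_atTop_atTop
  have hn1 : Tendsto (fun n : ℕ => (n:ℝ) - 1) atTop atTop :=
    tendsto_atTop_add_const_right _ (-1) hn
  have h1 : Tendsto (fun n : ℕ => (n:ℝ) / (n - 1)) atTop (𝓝 1) := by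
    have h2 : Tendsto (fun n : ℕ => 1 + 1 / ((n:ℝ) - 1)) atTop (𝓝 (1 + 0)) :=
      (tendsto_const_nhds.div_atTop hn1).const_add 1
    rw [add_zero] at h2
    refine h2.congr' ?_
    filter_upwards [eventually_ge_atTop 2] with n hn
    have hnR : (2:ℝ) ≤ n := by exact_mod_cast hn
    have : (n:ℝ) - 1 ≠ 0 := by linarith
    field_simp
    ring
  have h3 : Tendsto (fun n : ℕ => Real.log (b / n) * (2 / ((n:ℝ) - 1))) atTop (𝓝 0) := by
    have h4 : Tendsto (fun n : ℕ => Real.log n / (n:ℝ)) atTop (𝓝 0) := by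
      have := Real.isLittleO_log_id_atTop.tendsto_div_nhds_zero
      exact this.comp hn
    have h5 : Tendsto (fun n : ℕ => (n:ℝ) / (n - 1)) atTop (𝓝 1) := h1
    have h6 : Tendsto (fun n : ℕ => Real.log b * (2 / ((n:ℝ) - 1)) -
        2 * (Real.log n / (n:ℝ)) * ((n:ℝ) / (n - 1))) atTop (𝓝 (Real.log b * 0 - 2 * 0 * 1)) :=
      (((tendsto_const_nhds (x := (2:ℝ))).div_atTop hn1).const_mul _).sub ((h4.const_mul 2).mul h5)
    simp only [mul_zero, zero_mul, sub_zero] at h6
    refine h6.congr' ?_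
    filter_upwards [eventually_ge_atTop 2] with n hn
    have hnR : (2:ℝ) ≤ n := by exact_mod_cast hn
    have h7 : (n:ℝ) - 1 ≠ 0 := by linarith
    have h8 : (n:ℝ) ≠ 0 := by linarith
    rw [Real.log_div hb.ne' h8]
    field_simp
  have h4 : Tendsto (fun n : ℕ => (b / n) ^ (2 / ((n:ℝ) - 1))) atTop (𝓝 1) := by
    have h5 := (Real.continuous_exp.tendsto 0).comp h3
    rw [Real.exp_zero] at h5
    refine h5.congr' ?_
    filter_upwards [eventually_ge_atTop 2] with n hn
    have hnR : (2:ℝ) ≤ n := by exact_mod_cast hn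
    show Real.exp (Real.log (b / n) * (2 / ((n:ℝ) - 1))) = _
    rw [Real.rpow_def_of_pos (by positivity)]
  simpa using h1.mul h4

/-- Upper bound for the rescaled areas. -/
theorem limsup_le {S : Set ℂ} (hS : MeasurableSet S) {a b : ℝ} (ha : 0 < a) (hSa : S ⊆ ann a b)
    {T : ℕ → Set ℂ} (hT : ∀ᶠ n : ℕ in atTop, T n ⊆ {c : ℂ | (n:ℂ) * c ^ (n - 1) ∈ S}) :
    limsup (fun n : ℕ => (n:ℝ≥0∞) * volume (T n)) atTop ≤ logArea S := by
  rcases lt_or_ge b a with hab | hab
  · have hempty : S = ∅ := by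
      rw [eq_empty_iff_forall_notMem]
      intro ξ hξ
      have := hSa hξ
      linarith [this.1, this.2]
    subst hempty
    have h1 : ∀ᶠ n : ℕ in atTop, (n:ℝ≥0∞) * volume (T n) = 0 := by
      filter_upwards [hT] with n hn
      have : T n = ∅ := by
        rw [← subset_empty_iff]
        exact hn.trans (fun c hc => hc)
      rw [this, measure_empty, mul_zero]
    rw [limsup_congr h1]
    simp
  have hb : 0 < b := by linarith
  have h1 : Tendsto (fun n : ℕ => ENNReal.ofReal ((n:ℝ) / (n - 1) * (b / n) ^ (2 / ((n:ℝ) - 1))) *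
      logArea S) atTop (𝓝 (ENNReal.ofReal 1 * logArea S)) := by
    refine ENNReal.Tendsto.mul_const (ENNReal.tendsto_ofReal (factor_tendsto hb)) ?_
    right
    exact ((logArea_mono hSa).trans_lt (logArea_ann_lt ha b)).ne
  rw [ENNReal.ofReal_one, one_mul] at h1
  rw [← h1.limsup_eq]
  refine limsup_le_limsup ?_
  filter_upwards [hT, eventually_ge_atTop 2] with n hT hn
  have hnR : (2:ℝ) ≤ n := by exact_mod_cast hn
  have hn1 : (0:ℝ) < (n:ℝ) - 1 := by linarith
  calc (n:ℝ≥0∞) * volume (T n) ≤ (n:ℝ≥0∞) * volume {c : ℂ | (n:ℂ) * c ^ (n - 1) ∈ S} := by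
        gcongr
    _ = _ := vol_pre hS hn
    _ ≤ ∫⁻ ξ in S, ENNReal.ofReal ((n:ℝ) / (n - 1) * (b / n) ^ (2 / ((n:ℝ) - 1))) *
        ENNReal.ofReal (1 / ‖ξ‖ ^ 2) := by
        refine setLIntegral_mono (by fun_prop) fun ξ hξ => ?_
        have := (hSa hξ).2
        gcongr
    _ = _ := by
        rw [lintegral_const_mul _ (by fun_prop)]
        rfl

/-- Lower bound for the rescaled areas. -/
theorem le_liminf {S : Set ℂ} (hS : MeasurableSet S) {a b : ℝ} (ha : 0 < a) (hSa : S ⊆ ann a b)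
    {T : ℕ → Set ℂ} (hT : ∀ᶠ n : ℕ in atTop, {c : ℂ | (n:ℂ) * c ^ (n - 1) ∈ S} ⊆ T n) :
    logArea S ≤ liminf (fun n : ℕ => (n:ℝ≥0∞) * volume (T n)) atTop := by
  have h1 : Tendsto (fun n : ℕ => ENNReal.ofReal ((n:ℝ) / (n - 1) * (a / n) ^ (2 / ((n:ℝ) - 1))) *
      logArea S) atTop (𝓝 (ENNReal.ofReal 1 * logArea S)) := by
    refine ENNReal.Tendsto.mul_const (ENNReal.tendsto_ofReal (factor_tendsto ha)) ?_
    right
    exact ((logArea_mono hSa).trans_lt (logArea_ann_lt ha b)).ne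
  rw [ENNReal.ofReal_one, one_mul] at h1
  rw [← h1.liminf_eq]
  refine liminf_le_liminf ?_
  filter_upwards [hT, eventually_ge_atTop 2] with n hT hn
  have hnR : (2:ℝ) ≤ n := by exact_mod_cast hn
  have hn1 : (0:ℝ) < (n:ℝ) - 1 := by linarith
  calc ENNReal.ofReal ((n:ℝ) / (n - 1) * (a / n) ^ (2 / ((n:ℝ) - 1))) * logArea S
      = ∫⁻ ξ in S, ENNReal.ofReal ((n:ℝ) / (n - 1) * (a / n) ^ (2 / ((n:ℝ) - 1))) *
        ENNReal.ofReal (1 / ‖ξ‖ ^ 2) := by
        rw [lintegral_const_mul _ (by fun_prop)]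
        rfl
    _ ≤ ∫⁻ ξ in S, ENNReal.ofReal (n / (n - 1) * (‖ξ‖ / n) ^ (2 / ((n:ℝ) - 1))) *
        ENNReal.ofReal (1 / ‖ξ‖ ^ 2) := by
        refine setLIntegral_mono (by fun_prop) fun ξ hξ => ?_
        have := (hSa hξ).1
        gcongr
    _ = (n:ℝ≥0∞) * volume {c : ℂ | (n:ℂ) * c ^ (n - 1) ∈ S} := (vol_pre hS hn).symm
    _ ≤ (n:ℝ≥0∞) * volume (T n) := by gcongr

theorem HG_mono {n p q : ℕ} {ξ : ℂ} (hpq : p ≤ q) (h : HG n p ξ) : HG n q ξ := by
  obtain ⟨m, hm1, hmp, y, hper, hmul⟩ := h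
  have hp0 : (0:ℝ) < p := by exact_mod_cast (hm1.trans hmp)
  have hpq' : (p:ℝ) ≤ q := by exact_mod_cast hpq
  refine ⟨m, hm1, hmp.trans hpq, y, hper, hmul.trans ?_⟩
  have : 1 / (q:ℝ) ≤ 1 / p := one_div_le_one_div_of_le hp0 hpq'
  linarith

/-- The parameters `c` in an annulus without attracting cycle of period at most `p` with multiplier
at most `1 - 1 / p`. -/
def TT (a b : ℝ) (p n : ℕ) : Set ℂ :=
  {c : ℂ | (n:ℂ) * c ^ (n - 1) ∈ ann a b ∧ ¬ HG n p (n * c ^ (n - 1))}

/-- The exact formula. -/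
theorem formula {a : ℝ} (ha : 0 < a) (b : ℝ) :
    (∀ p, logArea (ann a b \ expHyp) ≤
      liminf (fun n : ℕ => (n:ℝ≥0∞) * volume (TT a b p n)) atTop) ∧
    ⨅ p, limsup (fun n : ℕ => (n:ℝ≥0∞) * volume (TT a b p n)) atTop ≤
      logArea (ann a b \ expHyp) := by
  constructor
  · intro p
    -- the parameters with attracting cycles for some large `n`
    set F : ℕ → Set ℂ := fun N => ⋃ n ∈ Set.Ici (N + 2), {ξ | HG n p ξ} with hF
    have hFm : ∀ N, MeasurableSet (F N) := by
      intro N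
      refine MeasurableSet.biUnion (to_countable _) fun n hn => ?_
      exact (isClosed_HG (by rw [mem_Ici] at hn; omega)).measurableSet
    have hanti : Antitone F := by
      intro M N hMN
      refine biUnion_subset_biUnion_left ?_
      exact Ici_subset_Ici.2 (by omega)
    have h1 : ∀ N, logArea (ann a b \ F N) ≤
        liminf (fun n : ℕ => (n:ℝ≥0∞) * volume (TT a b p n)) atTop := by
      intro N
      refine le_liminf ((meas_ann a b).diff (hFm N)) ha sdiff_subset ?_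
      filter_upwards [eventually_ge_atTop (N + 2)] with n hn
      rintro c ⟨hc1, hc2⟩
      refine ⟨hc1, fun h => hc2 ?_⟩
      rw [hF]
      exact mem_biUnion hn h
    have h2 : ⋂ N, F N ⊆ expHyp := by
      intro ξ hξ
      rw [mem_iInter] at hξ
      refine ⟨p, closed_HE ?_⟩
      have h3 : ∃ᶠ n : ℕ in atTop, HG n p ξ := by
        rw [frequently_atTop]
        intro N
        have := hξ N
        rw [hF, mem_iUnion₂] at this
        obtain ⟨n, hn, h⟩ := this
        rw [mem_Ici] at hn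
        exact ⟨n, by omega, h⟩
      have h4 : Tendsto (fun n : ℕ => (n, ξ)) atTop (atTop ×ˢ 𝓝 ξ) :=
        tendsto_id.prodMk tendsto_const_nhds
      exact h4.frequently h3
    have h3 : Tendsto (fun N => mu (ann a b \ F N)) atTop (𝓝 (mu (⋃ N, ann a b \ F N))) :=
      tendsto_measure_iUnion_atTop fun M N hMN => sdiff_subset_sdiff_right (hanti hMN)
    have h4 : mu (⋃ N, ann a b \ F N) ≤
        liminf (fun n : ℕ => (n:ℝ≥0∞) * volume (TT a b p n)) atTop := by
      refine le_of_tendsto' h3 fun N => ?_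
      rw [mu_eq ((meas_ann a b).diff (hFm N))]
      exact h1 N
    refine le_trans ?_ h4
    rw [mu_eq (MeasurableSet.iUnion fun N => (meas_ann a b).diff (hFm N))]
    refine logArea_mono ?_
    rintro ξ ⟨hξ1, hξ2⟩
    rw [mem_iUnion]
    by_contra hcon
    push Not at hcon
    refine hξ2 (h2 ?_)
    rw [mem_iInter]
    intro N
    by_contra h5
    exact hcon N ⟨hξ1, h5⟩
  · -- the stable parameters
    set O : ℕ → Set ℂ := fun N => interior {ξ | ∀ n, N ≤ n → HG n N ξ} with hO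
    have hOm : ∀ N, MeasurableSet (O N) := fun N => isOpen_interior.measurableSet
    have hmono : Monotone O := by
      intro M N hMN
      refine interior_mono fun ξ hξ n hn => HG_mono hMN (hξ n (by omega))
    have h1 : ∀ N, ⨅ p, limsup (fun n : ℕ => (n:ℝ≥0∞) * volume (TT a b p n)) atTop ≤
        logArea (ann a b \ O N) := by
      intro N
      refine (iInf_le _ N).trans ?_
      refine limsup_le ((meas_ann a b).diff (hOm N)) ha sdiff_subset ?_
      filter_upwards [eventually_ge_atTop N] with n hn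
      rintro c ⟨hc1, hc2⟩
      refine ⟨hc1, fun h => hc2 ?_⟩
      exact interior_subset h n hn
    have h2 : expHyp ⊆ ⋃ N, O N := by
      rintro ξ ⟨p, hp⟩
      have h3 := stable_HE hp
      rw [eventually_prod_iff] at h3
      obtain ⟨pa, hpa, pb, hpb, h3⟩ := h3
      rw [eventually_atTop] at hpa
      obtain ⟨N, hN⟩ := hpa
      rw [mem_iUnion]
      refine ⟨max N (p + 1), ?_⟩
      rw [hO, mem_interior_iff_mem_nhds]
      filter_upwards [hpb] with ζ hζ
      intro n hn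
      exact HG_mono (le_max_right _ _) (h3 (hN n ((le_max_left _ _).trans hn)) hζ)
    have h3 : Tendsto (fun N => mu (ann a b \ O N)) atTop (𝓝 (mu (⋂ N, ann a b \ O N))) := by
      refine tendsto_measure_iInter_atTop
        (fun N => ((meas_ann a b).diff (hOm N)).nullMeasurableSet)
        (fun M N hMN => sdiff_subset_sdiff_right (hmono hMN)) ⟨0, ?_⟩
      refine ne_of_lt ?_
      rw [mu_eq ((meas_ann a b).diff (hOm 0))]
      exact (logArea_mono sdiff_subset).trans_lt (logArea_ann_lt ha b)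
    have h4 : ⨅ p, limsup (fun n : ℕ => (n:ℝ≥0∞) * volume (TT a b p n)) atTop ≤
        mu (⋂ N, ann a b \ O N) := by
      refine ge_of_tendsto' h3 fun N => ?_
      rw [mu_eq ((meas_ann a b).diff (hOm N))]
      exact h1 N
    refine h4.trans ?_
    rw [mu_eq (MeasurableSet.iInter fun N => (meas_ann a b).diff (hOm N))]
    refine logArea_mono ?_
    intro ξ hξ
    rw [mem_iInter] at hξ
    refine ⟨(hξ 0).1, fun h => ?_⟩
    have := h2 h
    rw [mem_iUnion] at this
    obtain ⟨N, hN⟩ := this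
    exact (hξ N).2 hN

end Pool.Agent.TH363.EX
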