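import Mathlib
import Pool.Agent.TH363.EX.Area

/-! Distances to the hyperbolic parameters, in the limit of large degree. -/

set_option autoImplicit false
open Filter Topology Metric Set MeasureTheory

namespace Pool.Agent.TH363.EX

theorem isCompact_ann (a b : ℝ) : IsCompact (ann a b) := by
  refine Metric.isCompact_of_isClosed_isBounded (isClosed_ann a b) ?_
  refine (Metric.isBounded_closedBall (x := (0:ℂ)) (r := b)).subset fun ξ hξ => ?_
  rw [mem_closedBall, dist_zero_right]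
  exact hξ.2

/-- Uniformity on annuli. -/
theorem unif {a b K : ℝ}
    (h : ∀ ξ ∈ ann a b, ∃ s : ℂ, ‖s‖ ≤ K ∧ ξ * Complex.exp s ∈ expHyp) :
    ∃ p N : ℕ, ∀ n, N ≤ n → ∀ ξ ∈ ann a b, ∃ s : ℂ, ‖s‖ ≤ K ∧ HG n p (ξ * Complex.exp s) := by
  refine (isCompact_ann a b).induction_on
    (p := fun U => ∃ p N : ℕ, ∀ n, N ≤ n → ∀ ξ ∈ U, ∃ s : ℂ, ‖s‖ ≤ K ∧ HG n p (ξ * Complex.exp s))
    ⟨0, 0, fun n _ ξ hξ => absurd hξ (notMem_empty ξ)⟩ ?_ ?_ ?_
  · rintro s t hst ⟨p, N, h1⟩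
    exact ⟨p, N, fun n hn ξ hξ => h1 n hn ξ (hst hξ)⟩
  · rintro s t ⟨p, N, h1⟩ ⟨p', N', h2⟩
    refine ⟨max p p', max N N', fun n hn ξ hξ => ?_⟩
    rcases hξ with hξ | hξ
    · obtain ⟨z, hz1, hz2⟩ := h1 n ((le_max_left _ _).trans hn) ξ hξ
      exact ⟨z, hz1, HG_mono (le_max_left _ _) hz2⟩
    · obtain ⟨z, hz1, hz2⟩ := h2 n ((le_max_right _ _).trans hn) ξ hξ
      exact ⟨z, hz1, HG_mono (le_max_right _ _) hz2⟩
  · intro ξ hξ
    obtain ⟨s, hs, p, hp⟩ := h ξ hξ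
    have h3 := stable_HE hp
    rw [eventually_prod_iff] at h3
    obtain ⟨pa, hpa, pb, hpb, h3⟩ := h3
    rw [eventually_atTop] at hpa
    obtain ⟨N, hN⟩ := hpa
    have hcont : Tendsto (fun ζ : ℂ => ζ * Complex.exp s) (𝓝 ξ) (𝓝 (ξ * Complex.exp s)) :=
      (continuous_id.mul continuous_const).tendsto ξ
    refine ⟨{ζ | pb (ζ * Complex.exp s)}, mem_nhdsWithin_of_mem_nhds (hcont.eventually hpb),
      p + 1, N, fun n hn ζ hζ => ⟨s, hs, h3 (hN n hn) hζ⟩⟩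

theorem norm_exp_sub_one_le {w : ℂ} (hw : ‖w‖ ≤ 1) : ‖Complex.exp w - 1‖ ≤ ‖w‖ + ‖w‖ ^ 2 := by
  have h1 := Complex.norm_exp_sub_one_sub_id_le hw
  calc ‖Complex.exp w - 1‖ = ‖w + (Complex.exp w - 1 - w)‖ := by congr 1; ring
    _ ≤ ‖w‖ + ‖Complex.exp w - 1 - w‖ := norm_add_le _ _
    _ ≤ _ := by linarith

/-- From the exponential family to the Multibrot sets. -/
theorem to_n {a b δ : ℝ} (ha : 0 < a) (hδ : 0 ≤ δ)
    (h : ∀ ξ ∈ ann a b, ∀ ε : ℝ, 0 < ε → ∃ s : ℂ, ‖s‖ ≤ δ + ε ∧ ξ * Complex.exp s ∈ expHyp)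
    {ε : ℝ} (hε : 0 < ε) : ∃ p n₀ : ℕ, ∀ n : ℕ, n₀ ≤ n → ∀ c : ℂ,
      a ≤ n * ‖c‖ ^ (n - 1) → n * ‖c‖ ^ (n - 1) ≤ b → ∃ c' : ℂ, ‖c' - c‖ ≤ (δ + ε) / n ∧
        ∃ m z, m ≤ p ∧ N62a1eb23.IsAttractingCycle (fun z => z ^ n + c') m z ∧
          ‖deriv (fun z => z ^ n + c')^[m] z‖ ≤ 1 - 1 / p := by
  obtain ⟨p, N, h1⟩ := unif (K := δ + ε / 2) fun ξ hξ => h ξ hξ (ε / 2) (by linarith)
  set K : ℝ := δ + ε / 2 with hK
  have hK0 : 0 < K := by rw [hK]; linarith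
  -- the comparison of the distances
  have hn : Tendsto (fun n : ℕ => (n:ℝ)) atTop atTop := tendsto_natCast_atTop_atTop
  have hn1 : Tendsto (fun n : ℕ => (n:ℝ) - 1) atTop atTop :=
    tendsto_atTop_add_const_right _ (-1) hn
  have hlim : Tendsto (fun n : ℕ => (1 + 1 / ((n:ℝ) - 1)) * (K + K ^ 2 / ((n:ℝ) - 1))) atTop
      (𝓝 ((1 + 0) * (K + 0))) :=
    ((tendsto_const_nhds.div_atTop hn1).const_add 1).mul
      ((tendsto_const_nhds.div_atTop hn1).const_add K)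
  have hev : ∀ᶠ n : ℕ in atTop, (1 + 1 / ((n:ℝ) - 1)) * (K + K ^ 2 / ((n:ℝ) - 1)) < δ + ε :=
    hlim.eventually_lt_const (by rw [hK]; linarith)
  have hev2 := (hev.and (hn.eventually_ge_atTop b)).and
    ((hn1.eventually_ge_atTop K).and (eventually_ge_atTop 2))
  rw [eventually_atTop] at hev2
  obtain ⟨n₁, hn₁⟩ := hev2
  refine ⟨p, max N n₁, fun n hnn c hca hcb => ?_⟩
  obtain ⟨⟨e1, e2⟩, e3, e4⟩ := hn₁ n ((le_max_right _ _).trans hnn)
  have hnR : (2:ℝ) ≤ n := by exact_mod_cast e4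
  have hn0 : (0:ℝ) < n := by linarith
  have hn10 : (0:ℝ) < (n:ℝ) - 1 := by linarith
  have hc0 : c ≠ 0 := by
    rintro rfl
    rw [norm_zero, zero_pow (by omega), mul_zero] at hca
    linarith
  have hnorm : ‖(n:ℂ) * c ^ (n - 1)‖ = n * ‖c‖ ^ (n - 1) := by
    rw [norm_mul, norm_pow, Complex.norm_natCast]
  obtain ⟨s, hs, hHG⟩ := h1 n ((le_max_left _ _).trans hnn) (n * c ^ (n - 1))
    ⟨by rw [hnorm]; exact hca, by rw [hnorm]; exact hcb⟩
  set c' : ℂ := c * Complex.exp (s / ((n - 1 : ℕ) : ℂ)) with hc'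
  have hcast : ((n - 1 : ℕ) : ℝ) = (n:ℝ) - 1 := by
    rw [Nat.cast_sub (by omega)]; simp
  have hcastC : ((n - 1 : ℕ) : ℂ) ≠ 0 := by
    have : n - 1 ≠ 0 := by omega
    exact_mod_cast this
  have hc'0 : c' ≠ 0 := mul_ne_zero hc0 (Complex.exp_ne_zero _)
  have hpow : (n:ℂ) * c' ^ (n - 1) = n * c ^ (n - 1) * Complex.exp s := by
    rw [hc', mul_pow, ← Complex.exp_nat_mul]
    have : ((n - 1 : ℕ) : ℂ) * (s / ((n - 1 : ℕ) : ℂ)) = s := by field_simp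
    rw [this]
    ring
  refine ⟨c', ?_, ?_⟩
  · have hc1 : ‖c‖ ≤ 1 := by
      by_contra hcon
      push Not at hcon
      have h5 : 1 < ‖c‖ ^ (n - 1) := one_lt_pow₀ hcon (by omega)
      have h6 : (n:ℝ) * 1 < n * ‖c‖ ^ (n - 1) := by gcongr
      linarith
    have hw : ‖s / ((n - 1 : ℕ) : ℂ)‖ ≤ K / ((n:ℝ) - 1) := by
      rw [norm_div, Complex.norm_natCast, hcast]
      gcongr
    have hw1 : K / ((n:ℝ) - 1) ≤ 1 := by
      rw [div_le_one hn10]; exact e3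
    have h5 : c' - c = c * (Complex.exp (s / ((n - 1 : ℕ) : ℂ)) - 1) := by rw [hc']; ring
    rw [h5, norm_mul, le_div_iff₀ hn0]
    have h6 := norm_exp_sub_one_le (hw.trans hw1)
    calc ‖c‖ * ‖Complex.exp (s / ((n - 1 : ℕ) : ℂ)) - 1‖ * n
        ≤ 1 * (K / ((n:ℝ) - 1) + (K / ((n:ℝ) - 1)) ^ 2) * n := by
          gcongr
          refine h6.trans ?_
          gcongr
      _ = (1 + 1 / ((n:ℝ) - 1)) * (K + K ^ 2 / ((n:ℝ) - 1)) := by
          field_simp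
          ring
      _ ≤ δ + ε := e1.le
  · obtain ⟨m, hm, hmp, y, hper, hmul⟩ := hHG
    rw [← hpow] at hper hmul
    have hp0 : (0:ℝ) < 1 / p := by
      have : (1:ℝ) ≤ p := by exact_mod_cast hm.trans hmp
      positivity
    obtain ⟨z, hz, hz2⟩ := (conj_iff (show 1 ≤ n by omega) hc'0 (m := m) (q := 1 - 1 / p)).2
      ⟨hm, y, hper, by linarith, hmul⟩
    exact ⟨m, z, hmp, hz, hz2⟩

/-- From the Multibrot sets to the exponential family. -/
theorem of_n {a b δ : ℝ} (ha : 0 < a) (hδ : 0 ≤ δ)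
    (h : ∀ ε : ℝ, 0 < ε → ∃ p n₀ : ℕ, ∀ n : ℕ, n₀ ≤ n → ∀ c : ℂ,
      a ≤ n * ‖c‖ ^ (n - 1) → n * ‖c‖ ^ (n - 1) ≤ b → ∃ c' : ℂ, ‖c' - c‖ ≤ (δ + ε) / n ∧
        ∃ m z, m ≤ p ∧ N62a1eb23.IsAttractingCycle (fun z => z ^ n + c') m z ∧
          ‖deriv (fun z => z ^ n + c')^[m] z‖ ≤ 1 - 1 / p)
    {ξ : ℂ} (hξ : ξ ∈ ann a b) {ε : ℝ} (hε : 0 < ε) :
    ∃ s : ℂ, ‖s‖ ≤ δ + ε ∧ ξ * Complex.exp s ∈ expHyp := by
  obtain ⟨p, n₀, h1⟩ := h (ε / 2) (by linarith)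
  set K : ℝ := δ + ε / 2 with hK
  have hK0 : 0 < K := by rw [hK]; linarith
  have hξn : 0 < ‖ξ‖ := lt_of_lt_of_le ha hξ.1
  have hξ0 : ξ ≠ 0 := norm_pos_iff.1 hξn
  have hn : Tendsto (fun n : ℕ => (n:ℝ)) atTop atTop := tendsto_natCast_atTop_atTop
  have hn1 : Tendsto (fun n : ℕ => (n:ℝ) - 1) atTop atTop :=
    tendsto_atTop_add_const_right _ (-1) hn
  -- the roots
  set c : ℕ → ℂ := fun n => Complex.exp (Complex.log (ξ / n) / ((n - 1 : ℕ) : ℂ)) with hc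
  have hcn : ∀ n : ℕ, 2 ≤ n → (n:ℂ) * c n ^ (n - 1) = ξ := by
    intro n hn2
    have hnC : (n:ℂ) ≠ 0 := by
      have : n ≠ 0 := by omega
      exact_mod_cast this
    have hcastC : ((n - 1 : ℕ) : ℂ) ≠ 0 := by
      have : n - 1 ≠ 0 := by omega
      exact_mod_cast this
    have h2 : ((n - 1 : ℕ) : ℂ) * (Complex.log (ξ / n) / ((n - 1 : ℕ) : ℂ)) =
        Complex.log (ξ / n) := by field_simp
    rw [hc]
    show (n:ℂ) * Complex.exp _ ^ (n - 1) = ξ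
    rw [← Complex.exp_nat_mul, h2, Complex.exp_log (div_ne_zero hξ0 hnC)]
    field_simp
  have hcnorm : ∀ n : ℕ, 2 ≤ n → ‖c n‖ = Real.exp (Real.log (‖ξ‖ / n) / ((n:ℝ) - 1)) := by
    intro n hn2
    have hcast : ((n - 1 : ℕ) : ℝ) = (n:ℝ) - 1 := by
      rw [Nat.cast_sub (by omega)]; simp
    rw [hc]
    show ‖Complex.exp _‖ = _
    rw [Complex.norm_exp]
    congr 1
    have h3 : Complex.log (ξ / n) / ((n - 1 : ℕ) : ℂ) =
        Complex.log (ξ / n) / (((n - 1 : ℕ) : ℝ) : ℂ) := by norm_cast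
    rw [h3, Complex.div_ofReal_re, Complex.log_re, norm_div, Complex.norm_natCast, hcast]
  have hclim : Tendsto (fun n : ℕ => ‖c n‖) atTop (𝓝 1) := by
    have h3 : Tendsto (fun n : ℕ => Real.log (‖ξ‖ / n) / ((n:ℝ) - 1)) atTop (𝓝 0) := by
      have h4 : Tendsto (fun n : ℕ => Real.log n / (n:ℝ)) atTop (𝓝 0) := by
        have := Real.isLittleO_log_id_atTop.tendsto_div_nhds_zero
        exact this.comp hn
      have h5 : Tendsto (fun n : ℕ => 1 + 1 / ((n:ℝ) - 1)) atTop (𝓝 (1 + 0)) :=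
        (tendsto_const_nhds.div_atTop hn1).const_add 1
      have h6 : Tendsto (fun n : ℕ => Real.log ‖ξ‖ / ((n:ℝ) - 1) -
          (Real.log n / (n:ℝ)) * (1 + 1 / ((n:ℝ) - 1))) atTop (𝓝 (0 - 0 * (1 + 0))) :=
        (tendsto_const_nhds.div_atTop hn1).sub (h4.mul h5)
      simp only [zero_mul, sub_zero] at h6
      refine h6.congr' ?_
      filter_upwards [eventually_ge_atTop 2] with n hn
      have hnR : (2:ℝ) ≤ n := by exact_mod_cast hn
      have h7 : (n:ℝ) - 1 ≠ 0 := by linarith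
      have h8 : (n:ℝ) ≠ 0 := by linarith
      rw [Real.log_div hξn.ne' h8]
      field_simp
      ring
    have h4 := (Real.continuous_exp.tendsto 0).comp h3
    rw [Real.exp_zero] at h4
    refine h4.congr' ?_
    filter_upwards [eventually_ge_atTop 2] with n hn
    exact (hcnorm n hn).symm
  -- the distances
  have hr : Tendsto (fun n : ℕ => K / (n * ‖c n‖)) atTop (𝓝 0) := by
    refine tendsto_const_nhds.div_atTop ?_
    exact hn.atTop_mul_pos one_pos hclim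
  have hlim : Tendsto (fun n : ℕ => K / ‖c n‖ * (1 + K / (n * ‖c n‖))) atTop
      (𝓝 (K / 1 * (1 + 0))) :=
    (tendsto_const_nhds.div hclim one_ne_zero).mul (hr.const_add 1)
  have hev : ∀ᶠ n : ℕ in atTop, K / ‖c n‖ * (1 + K / (n * ‖c n‖)) < δ + ε :=
    hlim.eventually_lt_const (by rw [hK]; linarith)
  -- the parameters
  have hev2 : ∀ᶠ n : ℕ in atTop, ∃ s : ℂ, ‖s‖ ≤ δ + ε ∧ HG n p (ξ * Complex.exp s) := by
    filter_upwards [hev, eventually_ge_atTop n₀, eventually_ge_atTop 2,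
      hr.eventually_le_const (show (0:ℝ) < 1 / 2 by norm_num)] with n e1 e2 e3 e4
    have hnR : (2:ℝ) ≤ n := by exact_mod_cast e3
    have hn0 : (0:ℝ) < n := by linarith
    have hcn0 : 0 < ‖c n‖ := by rw [hcnorm n e3]; exact Real.exp_pos _
    have hcne : c n ≠ 0 := norm_pos_iff.1 hcn0
    have hnorm : n * ‖c n‖ ^ (n - 1) = ‖ξ‖ := by
      rw [← hcn n e3, norm_mul, norm_pow, Complex.norm_natCast]
    obtain ⟨c', hd, m, z, hmp, hz, hz2⟩ := h1 n e2 (c n) (by rw [hnorm]; exact hξ.1)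
      (by rw [hnorm]; exact hξ.2)
    set u : ℂ := c' / c n - 1 with hu
    have hun : ‖u‖ ≤ K / (n * ‖c n‖) := by
      have : u = (c' - c n) / c n := by rw [hu]; field_simp
      rw [this, norm_div, div_le_div_iff₀ hcn0 (by positivity)]
      have h4 : ‖c' - c n‖ * n ≤ K := by rwa [le_div_iff₀ hn0] at hd
      nlinarith
    have hu1 : ‖u‖ ≤ 1 / 2 := hun.trans e4
    have h1u : 1 + u ≠ 0 := by
      intro h5
      have : u = -1 := by linear_combination h5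
      rw [this, norm_neg, norm_one] at hu1
      norm_num at hu1
    have hc'eq : c' = c n * (1 + u) := by rw [hu]; field_simp; ring
    have hc'0 : c' ≠ 0 := by rw [hc'eq]; exact mul_ne_zero hcne h1u
    set s : ℂ := ((n - 1 : ℕ) : ℂ) * Complex.log (1 + u) with hs
    have hcast : ((n - 1 : ℕ) : ℝ) = (n:ℝ) - 1 := by
      rw [Nat.cast_sub (by omega)]; simp
    have hpow : (n:ℂ) * c' ^ (n - 1) = ξ * Complex.exp s := by
      rw [hc'eq, mul_pow, hs, Complex.exp_nat_mul, Complex.exp_log h1u, ← mul_assoc, hcn n e3]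
    refine ⟨s, ?_, ?_⟩
    · have h5 := Complex.norm_log_one_add_sub_self_le (z := u) (by linarith)
      have h6 : (1 - ‖u‖)⁻¹ ≤ 2 := by
        rw [inv_le_comm₀ (by linarith) (by norm_num)]
        linarith
      have h7 : ‖Complex.log (1 + u)‖ ≤ ‖u‖ + ‖u‖ ^ 2 := by
        calc ‖Complex.log (1 + u)‖ = ‖u + (Complex.log (1 + u) - u)‖ := by congr 1; ring
          _ ≤ ‖u‖ + ‖Complex.log (1 + u) - u‖ := norm_add_le _ _
          _ ≤ ‖u‖ + ‖u‖ ^ 2 * (1 - ‖u‖)⁻¹ / 2 := by gcongr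
          _ ≤ ‖u‖ + ‖u‖ ^ 2 * 2 / 2 := by gcongr
          _ = _ := by ring
      rw [hs, norm_mul, Complex.norm_natCast, hcast]
      calc ((n:ℝ) - 1) * ‖Complex.log (1 + u)‖ ≤ n * (‖u‖ + ‖u‖ ^ 2) := by
            gcongr
            linarith
        _ = n * (‖u‖ * (1 + ‖u‖)) := by ring
        _ ≤ n * (K / (n * ‖c n‖) * (1 + K / (n * ‖c n‖))) := by gcongr
        _ = K / ‖c n‖ * (1 + K / (n * ‖c n‖)) := by field_simp
        _ ≤ δ + ε := e1.le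
    · obtain ⟨hm, y, hper, hlt, hmul⟩ := (conj_iff (show 1 ≤ n by omega) hc'0 (m := m)
        (q := 1 - 1 / p)).1 ⟨z, hz, hz2⟩
      rw [hpow] at hper hmul
      exact ⟨m, hm, hmp, y, hper, hmul⟩
  -- the limit
  classical
  rw [eventually_atTop] at hev2
  obtain ⟨N, hN⟩ := hev2
  choose! s hs1 hs2 using hN
  obtain ⟨t, ht, φ, hφ, hlimt⟩ := (isCompact_closedBall (0:ℂ) (δ + ε)).tendsto_subseq
    (x := fun k => s (N + k)) (fun k => by
      rw [mem_closedBall, dist_zero_right]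
      exact hs1 (N + k) (Nat.le_add_right _ _))
  refine ⟨t, by rwa [mem_closedBall, dist_zero_right] at ht, p, closed_HE ?_⟩
  have h5 : Tendsto (fun k : ℕ => (N + φ k, ξ * Complex.exp (s (N + φ k)))) atTop
      (atTop ×ˢ 𝓝 (ξ * Complex.exp t)) := by
    refine Tendsto.prodMk ?_ ?_
    · exact tendsto_atTop_mono (fun k => Nat.le_add_left _ _) hφ.tendsto_atTop
    · exact ((Complex.continuous_exp.tendsto t).comp hlimt).const_mul ξ
  refine h5.frequently (Eventually.frequently (Eventually.of_forall fun k => ?_))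
  exact hs2 (N + φ k) (Nat.le_add_right _ _)

end Pool.Agent.TH363.EX
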